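import Pool.Agent.H232.QT.D1

set_option autoImplicit false

namespace Pool.Agent.H120.QT.MX

open MeasureTheory Set Filter Topology
open Pool.Agent.H232.QT
open scoped Real

theorem q_facts {B : ℝ} (hB0 : 0 < B) (hB : B < π / 2) :
    0 < qa B ∧ qa B * (π - B) = π ∧ 0 < qa B * B ∧ qa B * B < π ∧ 0 < Real.sin (qa B * B) := by
  have h1 : 0 < π - B := by linarith [Real.pi_pos]
  have hq : 0 < qa B := div_pos Real.pi_pos h1
  have h2 : qa B * (π - B) = π := by unfold qa; field_simp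
  have h3 : 0 < qa B * B := mul_pos hq hB0
  have h4 : qa B * B < π := by nlinarith
  exact ⟨hq, h2, h3, h4, Real.sin_pos_of_pos_of_lt_pi h3 h4⟩

/-- lower bound of `dy B` near its pole -/
theorem pole {B : ℝ} (hB0 : 0 < B) (hB : B < π / 2) : ∃ k : ℝ, 0 < k ∧
    ∀ y : ℝ, -Real.cos B ^ 2 < y → y < 0 → k / (y + Real.cos B ^ 2) ≤ dy B y := by
  obtain ⟨hq, hqe, hqB0, hqB, hsin⟩ := q_facts hB0 hB
  have hpi := Real.pi_pos
  set X : ℝ := π / 2 - B with hX
  have hX0 : 0 < X := by linarith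
  have hX2 : X < π / 2 := by linarith
  have hcos : Real.cos B = Real.sin X := by rw [hX, Real.sin_pi_div_two_sub]
  have hcosB : 0 < Real.cos B := Real.cos_pos_of_mem_Ioo ⟨by linarith, hB⟩
  set c : ℝ := min (Real.sin X) (Real.sin (2 * X)) with hc
  have hc0 : 0 < c := lt_min (Real.sin_pos_of_pos_of_lt_pi hX0 (by linarith))
    (Real.sin_pos_of_pos_of_lt_pi (by linarith) (by linarith))
  refine ⟨Real.sin (qa B * B) * c / (2 * π), by positivity, ?_⟩
  intro y hy1 hy2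
  set ψ : ℝ := Real.arcsin (√(-y)) with hψ
  have hsq : √(-y) ^ 2 = -y := Real.sq_sqrt (by linarith)
  have hs0 : 0 < √(-y) := Real.sqrt_pos.2 (by linarith)
  have hs1 : √(-y) < Real.sin X := by
    rw [← hcos]
    refine lt_of_pow_lt_pow_left₀ 2 hcosB.le ?_
    rw [hsq]; linarith
  have hψ0 : 0 < ψ := Real.arcsin_pos.2 hs0
  have hψX : ψ < X := by
    rw [hψ]
    rw [Real.arcsin_lt_iff_lt_sin' ⟨by linarith, by linarith⟩]
    exact hs1
  have hsinψ : Real.sin ψ = √(-y) := Real.sin_arcsin (by linarith) (hs1.le.trans (Real.sin_le_one _))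
  have hyψ : y + Real.cos B ^ 2 = Real.sin (X - ψ) * Real.sin (X + ψ) := by
    have h1 : y = -Real.sin ψ ^ 2 := by rw [hsinψ, hsq]; ring
    rw [h1, hcos, Real.sin_sub X ψ, Real.sin_add X ψ]
    have h2 := Real.sin_sq_add_cos_sq ψ
    have h3 := Real.sin_sq_add_cos_sq X
    nlinarith
  have hlow1 : 2 / π * (X - ψ) ≤ Real.sin (X - ψ) := Real.mul_le_sin (by linarith) (by linarith)
  have hlow2 : c ≤ Real.sin (X + ψ) := by
    have hconc := strictConcaveOn_sin_Icc.concaveOn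
    have h1 : X + ψ ∈ segment ℝ X (2 * X) := by
      rw [segment_eq_Icc (by linarith)]
      exact ⟨by linarith, by linarith⟩
    exact hconc.min_le_of_mem_segment ⟨by linarith, by linarith⟩ ⟨by linarith, by linarith⟩ h1
  have hyc : 0 < y + Real.cos B ^ 2 := by linarith
  have hD : Real.cos (qa B * (2 * ψ)) + Real.cos (qa B * B) ≤ qa B * π / c * (y + Real.cos B ^ 2) := by
    have h1 : Real.cos (qa B * B) = -Real.cos (2 * qa B * X) := by
      rw [← Real.cos_pi_sub]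
      congr 1
      rw [hX]
      linarith
    have h2 : Real.cos (qa B * (2 * ψ)) - Real.cos (2 * qa B * X) ≤ 2 * qa B * (X - ψ) := by
      have h3 := Real.abs_cos_sub_cos_le (qa B * (2 * ψ)) (2 * qa B * X)
      have h4 := le_abs_self (Real.cos (qa B * (2 * ψ)) - Real.cos (2 * qa B * X))
      have h5 : |qa B * (2 * ψ) - 2 * qa B * X| = 2 * qa B * (X - ψ) := by
        rw [abs_of_nonpos (by nlinarith)]; ring
      linarith
    have h6 : 2 / π * (X - ψ) * c ≤ y + Real.cos B ^ 2 := by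
      rw [hyψ]
      exact mul_le_mul hlow1 hlow2 hc0.le (le_trans (by
        have : 0 ≤ X - ψ := by linarith
        positivity) hlow1)
    rw [h1]
    calc Real.cos (qa B * (2 * ψ)) + -Real.cos (2 * qa B * X) ≤ 2 * qa B * (X - ψ) := by linarith
      _ = qa B * π / c * (2 / π * (X - ψ) * c) := by field_simp
      _ ≤ _ := mul_le_mul_of_nonneg_left h6 (by positivity)
  have hDpos : 0 < Real.cos (qa B * (2 * ψ)) + Real.cos (qa B * B) := by
    have h1 : Real.cos (qa B * B) = -Real.cos (π - qa B * B) := by rw [Real.cos_pi_sub]; ring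
    rw [h1]
    have h2 : Real.cos (π - qa B * B) < Real.cos (qa B * (2 * ψ)) := by
      refine Real.cos_lt_cos_of_nonneg_of_le_pi (by positivity) (by linarith) ?_
      have : π - qa B * B = qa B * (2 * X) := by rw [hX]; linarith
      rw [this]
      exact mul_lt_mul_of_pos_left (by linarith) hq
    linarith
  unfold dy
  rw [if_neg (not_le.2 hy2), ← hψ]
  unfold Ci
  rw [div_le_div_iff₀ hyc hDpos]
  calc Real.sin (qa B * B) * c / (2 * π) * (Real.cos (qa B * (2 * ψ)) + Real.cos (qa B * B))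
      ≤ Real.sin (qa B * B) * c / (2 * π) * (qa B * π / c * (y + Real.cos B ^ 2)) :=
        mul_le_mul_of_nonneg_left hD (by positivity)
    _ = qa B / 2 * Real.sin (qa B * B) * (y + Real.cos B ^ 2) := by field_simp

theorem dy_cont (hB1 : S_B1) {α : ℝ} (h0 : 0 < α) (h1 : α < π / 2) :
    ContinuousOn (dy α) (Ioi (-Real.cos α ^ 2)) := by
  obtain ⟨hd, he, -⟩ := hB1 α h0 h1
  have h2 : ContinuousOn (fun y : ℝ => (dyc α (y : ℂ)).re) (Ioi (-Real.cos α ^ 2)) := by
    refine Complex.continuous_re.comp_continuousOn (hd.continuousOn.comp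
      Complex.continuous_ofReal.continuousOn ?_)
    intro y hy
    left
    simpa using hy
  refine h2.congr fun y hy => ?_
  show dy α y = (dyc α (y : ℂ)).re
  rw [he y hy, Complex.ofReal_re]

theorem cos_sq_lt_one {α : ℝ} (h0 : 0 < α) (h1 : α < π / 2) : Real.cos α ^ 2 < 1 := by
  have := Real.sin_sq_add_cos_sq α
  have h2 : 0 < Real.sin α := Real.sin_pos_of_pos_of_lt_pi h0 (by linarith [Real.pi_pos])
  nlinarith [sq_pos_of_pos h2]

/-- the arguments of `dy` -/
theorem args {S θ : ℝ} (hS1 : -1 < S) (hS0 : S < 0) :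
    0 < 1 + S * Real.sin θ ^ 2 ∧ 1 + S * Real.sin θ ^ 2 ≤ 1 ∧ 1 + S ≤ 1 + S * Real.sin θ ^ 2 ∧
    S ≤ S * Real.sin θ ^ 2 ∧ S * Real.sin θ ^ 2 ≤ 0 ∧
    S ≤ S * Real.cos θ ^ 2 / (1 + S * Real.sin θ ^ 2) ∧
    S * Real.cos θ ^ 2 / (1 + S * Real.sin θ ^ 2) ≤ 0 := by
  have hs0 := sq_nonneg (Real.sin θ)
  have hs1 := Real.sin_sq_le_one θ
  have hc0 := sq_nonneg (Real.cos θ)
  have hsc := Real.sin_sq_add_cos_sq θ
  have h1 : 0 < 1 + S * Real.sin θ ^ 2 := by nlinarith
  refine ⟨h1, by nlinarith, by nlinarith, by nlinarith, by nlinarith, ?_, ?_⟩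
  · rw [le_div_iff₀ h1]
    nlinarith [mul_nonneg (mul_nonneg (neg_nonneg.2 hS0.le) (by linarith : (0 : ℝ) ≤ 1 + S)) hs0]
  · exact div_nonpos_of_nonpos_of_nonneg (by nlinarith) h1.le

/-- the integrand -/
noncomputable def integrand (α β S θ : ℝ) : ℝ :=
    (dy α (S * Real.cos θ ^ 2 / (1 + S * Real.sin θ ^ 2)) - dy α (S * Real.sin θ ^ 2)) *
    (dy β (S * Real.cos θ ^ 2 / (1 + S * Real.sin θ ^ 2)) - dy β (S * Real.sin θ ^ 2)) /
      √(1 + S * Real.sin θ ^ 2)

theorem hS_eq (α β S : ℝ) : hS α β S = 2 / π ^ 2 * ∫ θ in (0 : ℝ)..(π / 2), integrand α β S θ := rfl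

theorem hS_comm (α β S : ℝ) : hS α β S = hS β α S := by
  unfold hS
  congr 2
  ext θ
  ring

theorem integrand_nonneg (hB1 : S_B1) {α β S : ℝ} (hα : 0 < α ∧ α < π / 2) (hβ : 0 < β ∧ β < π / 2)
    (hSα : -Real.cos α ^ 2 < S) (hSβ : -Real.cos β ^ 2 < S) (hS0 : S < 0) (θ : ℝ) :
    0 ≤ integrand α β S θ := by
  have hS1 : -1 < S := by
    have := cos_sq_lt_one hα.1 hα.2
    linarith
  obtain ⟨h1, h2, h3, h4, h5, h6, h7⟩ := args (θ := θ) hS1 hS0
  obtain ⟨-, -, -, -, hanα, -, -⟩ := hB1 α hα.1 hα.2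
  obtain ⟨-, -, -, -, hanβ, -, -⟩ := hB1 β hβ.1 hβ.2
  unfold integrand
  refine div_nonneg ?_ (Real.sqrt_nonneg _)
  set u := S * Real.sin θ ^ 2
  set v := S * Real.cos θ ^ 2 / (1 + u)
  rcases le_total u v with h | h
  · have ha := hanα.antitoneOn (show u ∈ Ioi _ from hSα.trans_le h4) (show v ∈ Ioi _ from hSα.trans_le h6) h
    have hb := hanβ.antitoneOn (show u ∈ Ioi _ from hSβ.trans_le h4) (show v ∈ Ioi _ from hSβ.trans_le h6) h
    nlinarith
  · have ha := hanα.antitoneOn (show v ∈ Ioi _ from hSα.trans_le h6) (show u ∈ Ioi _ from hSα.trans_le h4) h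
    have hb := hanβ.antitoneOn (show v ∈ Ioi _ from hSβ.trans_le h6) (show u ∈ Ioi _ from hSβ.trans_le h4) h
    nlinarith

theorem hS_nonneg (hB1 : S_B1) {α β S : ℝ} (hα : 0 < α ∧ α < π / 2) (hβ : 0 < β ∧ β < π / 2)
    (hSα : -Real.cos α ^ 2 < S) (hSβ : -Real.cos β ^ 2 < S) (hS0 : S < 0) : 0 ≤ hS α β S := by
  rw [hS_eq]
  refine mul_nonneg (by positivity) (intervalIntegral.integral_nonneg (by positivity) fun θ _ =>
    integrand_nonneg hB1 hα hβ hSα hSβ hS0 θ)

theorem integrand_cont (hB1 : S_B1) {α β S : ℝ} (hα : 0 < α ∧ α < π / 2) (hβ : 0 < β ∧ β < π / 2)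
    (hSα : -Real.cos α ^ 2 < S) (hSβ : -Real.cos β ^ 2 < S) (hS0 : S < 0) :
    Continuous (integrand α β S) := by
  have hS1 : -1 < S := by
    have := cos_sq_lt_one hα.1 hα.2
    linarith
  have cu : Continuous fun θ : ℝ => S * Real.sin θ ^ 2 := by fun_prop
  have cd : Continuous fun θ : ℝ => 1 + S * Real.sin θ ^ 2 := by fun_prop
  have cv : Continuous fun θ : ℝ => S * Real.cos θ ^ 2 / (1 + S * Real.sin θ ^ 2) := by
    refine Continuous.div (by fun_prop) cd fun θ => (args hS1 hS0).1.ne'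
  have c1 : Continuous fun θ => dy α (S * Real.cos θ ^ 2 / (1 + S * Real.sin θ ^ 2)) :=
    (dy_cont hB1 hα.1 hα.2).comp_continuous cv fun θ => hSα.trans_le (args hS1 hS0).2.2.2.2.2.1
  have c2 : Continuous fun θ => dy α (S * Real.sin θ ^ 2) :=
    (dy_cont hB1 hα.1 hα.2).comp_continuous cu fun θ => hSα.trans_le (args hS1 hS0).2.2.2.1
  have c3 : Continuous fun θ => dy β (S * Real.cos θ ^ 2 / (1 + S * Real.sin θ ^ 2)) :=
    (dy_cont hB1 hβ.1 hβ.2).comp_continuous cv fun θ => hSβ.trans_le (args hS1 hS0).2.2.2.2.2.1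
  have c4 : Continuous fun θ => dy β (S * Real.sin θ ^ 2) :=
    (dy_cont hB1 hβ.1 hβ.2).comp_continuous cu fun θ => hSβ.trans_le (args hS1 hS0).2.2.2.1
  exact ((c1.sub c2).mul (c3.sub c4)).div (Real.continuous_sqrt.comp cd) fun θ =>
    (Real.sqrt_pos.2 (args hS1 hS0).1).ne'

/-- upper bound -/
theorem hS_bound (hB1 : S_B1) {α β T : ℝ} (hα : 0 < α ∧ α < π / 2) (hβ : 0 < β ∧ β < π / 2)
    (hTα : -Real.cos α ^ 2 < T) (hTβ : -Real.cos β ^ 2 < T) :
    ∃ K : ℝ, ∀ S, T < S → S < 0 → hS α β S ≤ K := by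
  have hT1 : -1 < T := by
    have := cos_sq_lt_one hα.1 hα.2
    linarith
  obtain ⟨-, -, -, -, hanα, hpα, -⟩ := hB1 α hα.1 hα.2
  obtain ⟨-, -, -, -, hanβ, hpβ, -⟩ := hB1 β hβ.1 hβ.2
  refine ⟨2 / π ^ 2 * (dy α T * dy β T / √(1 + T) * |π / 2 - 0|), fun S hTS hS0 => ?_⟩
  rw [hS_eq]
  refine mul_le_mul_of_nonneg_left ?_ (by positivity)
  refine (Real.le_norm_self _).trans (intervalIntegral.norm_integral_le_of_norm_le_const fun θ _ => ?_)
  have hS1 : -1 < S := hT1.trans hTS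
  obtain ⟨h1, h2, h3, h4, h5, h6, h7⟩ := args (θ := θ) hS1 hS0
  unfold integrand
  set u := S * Real.sin θ ^ 2
  set v := S * Real.cos θ ^ 2 / (1 + u)
  have hb : ∀ {γ : ℝ}, -Real.cos γ ^ 2 < T → StrictAntiOn (dy γ) (Ioi (-Real.cos γ ^ 2)) →
      (∀ y, -Real.cos γ ^ 2 < y → 0 < dy γ y) → |dy γ v - dy γ u| ≤ dy γ T := by
    intro γ hγ han hp
    have hu1 := han.antitoneOn (show T ∈ Ioi _ from hγ) (show u ∈ Ioi _ from hγ.trans (hTS.trans_le h4))
      (hTS.le.trans h4)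
    have hv1 := han.antitoneOn (show T ∈ Ioi _ from hγ) (show v ∈ Ioi _ from hγ.trans (hTS.trans_le h6))
      (hTS.le.trans h6)
    have hu2 := hp u (hγ.trans (hTS.trans_le h4))
    have hv2 := hp v (hγ.trans (hTS.trans_le h6))
    rw [abs_le]
    constructor <;> linarith
  rw [norm_div, norm_mul, Real.norm_eq_abs, Real.norm_eq_abs, Real.norm_eq_abs,
    abs_of_nonneg (Real.sqrt_nonneg _)]
  have h8 : 0 < √(1 + T) := Real.sqrt_pos.2 (by linarith)
  have h9 : √(1 + T) ≤ √(1 + u) := Real.sqrt_le_sqrt (by linarith)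
  exact div_le_div₀ (mul_nonneg (hpα T hTα).le (hpβ T hTβ).le)
    (mul_le_mul (hb hTα hanα hpα) (hb hTβ hanβ hpβ) (abs_nonneg _) (hpα T hTα).le) h8 h9

set_option maxHeartbeats 4000000 in
/-- blow up -/
theorem hS_blow (hB1 : S_B1) {B c : ℝ} (hB : 0 < B ∧ B < π / 2) (hc : 0 < c ∧ c < π / 2) (hcB : c ≤ B)
    (M : ℝ) : ∃ s₀ : ℝ, 0 < s₀ ∧ ∀ s, 0 < s → s < s₀ → -Real.cos B ^ 2 + s < 0 ∧
      M < hS B c (-Real.cos B ^ 2 + s) := by
  obtain ⟨k, hk, hpole⟩ := pole hB.1 hB.2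
  have hcosB : 0 < Real.cos B := Real.cos_pos_of_mem_Ioo ⟨by linarith [hB.1, Real.pi_pos], hB.2⟩
  have hcosc : 0 < Real.cos c := Real.cos_pos_of_mem_Ioo ⟨by linarith [hc.1, Real.pi_pos], hc.2⟩
  have hC2 : 0 < Real.cos B ^ 2 := by positivity
  have hC1 := cos_sq_lt_one hB.1 hB.2
  have hcc : Real.cos B ≤ Real.cos c :=
    Real.cos_le_cos_of_nonneg_of_le_pi hc.1.le (by linarith [hB.2, Real.pi_pos]) hcB
  have hcc2 : Real.cos B ^ 2 ≤ Real.cos c ^ 2 := pow_le_pow_left₀ hcosB.le hcc 2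
  set C := Real.cos B ^ 2 with hCdef
  obtain ⟨-, -, -, -, hanB, hpB, -⟩ := hB1 B hB.1 hB.2
  obtain ⟨-, -, -, -, hanc, hpc, -⟩ := hB1 c hc.1 hc.2
  -- the two levels
  set y₁ : ℝ := -(C / 3) with hy₁
  set y₂ : ℝ := -(2 * C / 3) with hy₂
  have hδ : 0 < dy c y₂ - dy c y₁ := by
    have := hanc (show y₂ ∈ Ioi _ from by simp only [mem_Ioi]; linarith)
      (show y₁ ∈ Ioi _ from by simp only [mem_Ioi]; linarith) (by linarith)
    linarith
  set δ := dy c y₂ - dy c y₁ with hδd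
  have hDB1 : 0 < dy B y₁ := hpB y₁ (by rw [← hCdef]; linarith)
  set K : ℝ := 2 / π ^ 2 * (k / 4 * δ) with hK
  have hKpos : 0 < K := by have := Real.pi_pos; positivity
  -- the threshold
  set s₀ : ℝ := min (min (C / 6) ((1 - C) / 3)) (min (k / (4 * dy B y₁)) (min 1 (K / (|M| + 1)) ^ 2))
    with hs₀
  refine ⟨s₀, ?_, ?_⟩
  · refine lt_min (lt_min (by positivity) (by linarith)) (lt_min (by positivity) ?_)
    have : 0 < min 1 (K / (|M| + 1)) := lt_min one_pos (by positivity)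
    positivity
  intro s hs hss
  have hs1 : s < C / 6 := hss.trans_le ((min_le_left _ _).trans (min_le_left _ _))
  have hs2 : s < (1 - C) / 3 := hss.trans_le ((min_le_left _ _).trans (min_le_right _ _))
  have hs3 : s < k / (4 * dy B y₁) := hss.trans_le ((min_le_right _ _).trans (min_le_left _ _))
  have hs4 : s < min 1 (K / (|M| + 1)) ^ 2 := hss.trans_le ((min_le_right _ _).trans (min_le_right _ _))
  set S : ℝ := -C + s with hS
  have hS0 : S < 0 := by linarith
  refine ⟨hS0, ?_⟩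
  have hSB : -Real.cos B ^ 2 < S := by rw [← hCdef]; linarith
  have hSc : -Real.cos c ^ 2 < S := by linarith
  have hS1 : -1 < S := by linarith
  have hr : √s < K / (|M| + 1) := by
    have hm0 : 0 < min 1 (K / (|M| + 1)) := lt_min one_pos (by positivity)
    have : √s < min 1 (K / (|M| + 1)) := by
      rw [Real.sqrt_lt' hm0]; exact hs4
    exact this.trans_le (min_le_right _ _)
  have hr1 : √s < 1 := by
    have hm0 : 0 < min 1 (K / (|M| + 1)) := lt_min one_pos (by positivity)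
    have : √s < min 1 (K / (|M| + 1)) := by
      rw [Real.sqrt_lt' hm0]; exact hs4
    exact this.trans_le (min_le_left _ _)
  have hrpos : 0 < √s := Real.sqrt_pos.2 hs
  have hrr : √s * √s = s := Real.mul_self_sqrt hs.le
  have hpi3 := Real.pi_gt_three
  -- lower bound of the integrand near `π / 2`
  have hlow : ∀ θ ∈ Icc (π / 2 - √s) (π / 2), k / 4 * δ / s ≤ integrand B c S θ := by
    intro θ hθ
    obtain ⟨h1, h2, h3, h4, h5, h6, h7⟩ := args (θ := θ) hS1 hS0
    have hcosθ : Real.cos θ ^ 2 ≤ s := by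
      have h8 : Real.cos θ = Real.sin (π / 2 - θ) := (Real.sin_pi_div_two_sub θ).symm
      have h9 : 0 ≤ π / 2 - θ := by linarith [hθ.2]
      have h10 : Real.sin (π / 2 - θ) ≤ π / 2 - θ := Real.sin_le h9
      have h11 : 0 ≤ Real.sin (π / 2 - θ) := Real.sin_nonneg_of_nonneg_of_le_pi h9 (by linarith [hθ.1])
      rw [h8]
      have h12 : π / 2 - θ ≤ √s := by linarith [hθ.1]
      calc Real.sin (π / 2 - θ) ^ 2 ≤ √s ^ 2 := pow_le_pow_left₀ h11 (h10.trans h12) 2
        _ = s := Real.sq_sqrt hs.le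
    have hsc := Real.sin_sq_add_cos_sq θ
    set u := S * Real.sin θ ^ 2 with hu
    set v := S * Real.cos θ ^ 2 / (1 + u) with hv
    have hc0 := sq_nonneg (Real.cos θ)
    have hu1 : u ≤ -C + 2 * s := by
      have a0 : u = S - S * Real.cos θ ^ 2 := by rw [hu]; linear_combination S * hsc
      have a2 : -C * Real.cos θ ^ 2 ≤ S * Real.cos θ ^ 2 :=
        mul_le_mul_of_nonneg_right (by linarith) hc0
      have a3 : C * Real.cos θ ^ 2 ≤ 1 * s :=
        mul_le_mul hC1.le hcosθ hc0 zero_le_one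
      linarith
    have hu2 : u ≤ y₂ := by linarith
    have hv1 : y₁ ≤ v := by
      rw [hv, le_div_iff₀ h1]
      have a1 : 1 - C ≤ 1 + u := by linarith
      have a2 : -C * Real.cos θ ^ 2 ≤ S * Real.cos θ ^ 2 :=
        mul_le_mul_of_nonneg_right (by linarith) hc0
      have a3 : C * Real.cos θ ^ 2 ≤ C * s := mul_le_mul_of_nonneg_left hcosθ hC2.le
      have a4 : C * s ≤ C * ((1 - C) / 3) := mul_le_mul_of_nonneg_left hs2.le hC2.le
      have a5 : C / 3 * (1 - C) ≤ C / 3 * (1 + u) := mul_le_mul_of_nonneg_left a1 (by positivity)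
      calc y₁ * (1 + u) = -(C / 3 * (1 + u)) := by rw [hy₁]; ring
        _ ≤ -(C / 3 * (1 - C)) := by linarith
        _ = -(C * ((1 - C) / 3)) := by ring
        _ ≤ -(C * s) := by linarith
        _ ≤ S * Real.cos θ ^ 2 := by linarith
    have huv : u < v := by linarith
    have hb2 : δ ≤ dy c u - dy c v := by
      have e1 := hanc.antitoneOn (show u ∈ Ioi _ from hSc.trans_le h4)
        (show y₂ ∈ Ioi _ from by simp only [mem_Ioi]; linarith) hu2
      have e2 := hanc.antitoneOn (show y₁ ∈ Ioi _ from by simp only [mem_Ioi]; linarith)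
        (show v ∈ Ioi _ from hSc.trans_le h6) hv1
      linarith
    have hb1 : k / (4 * s) ≤ dy B u - dy B v := by
      have hu0 : u < 0 := by linarith
      have e1 := hpole u (by rw [← hCdef] at *; linarith) hu0
      have e2 := hanB.antitoneOn (show y₁ ∈ Ioi _ from by simp only [mem_Ioi]; rw [← hCdef]; linarith)
        (show v ∈ Ioi _ from hSB.trans_le h6) hv1
      have e3 : k / (2 * s) ≤ k / (u + C) := by
        have : 0 < u + C := by linarith
        exact div_le_div_of_nonneg_left hk.le this (by linarith)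
      have e4 : dy B y₁ ≤ k / (4 * s) := by
        rw [lt_div_iff₀ (by positivity)] at hs3
        rw [le_div_iff₀ (by positivity)]
        linarith
      have e5 : k / (2 * s) = k / (4 * s) + k / (4 * s) := by field_simp; ring
      linarith
    have hprod : k / 4 * δ / s ≤ (dy B v - dy B u) * (dy c v - dy c u) := by
      have : k / (4 * s) * δ ≤ (dy B u - dy B v) * (dy c u - dy c v) :=
        mul_le_mul hb1 hb2 hδ.le (le_trans (by positivity) hb1)
      calc k / 4 * δ / s = k / (4 * s) * δ := by field_simp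
        _ ≤ _ := this
        _ = _ := by ring
    unfold integrand
    rw [← hu, ← hv]
    have hsq1 : √(1 + u) ≤ 1 := Real.sqrt_le_one.2 h2
    have hsq0 : 0 < √(1 + u) := Real.sqrt_pos.2 h1
    rw [le_div_iff₀ hsq0]
    have hpos : 0 ≤ k / 4 * δ / s := by positivity
    exact (mul_le_of_le_one_right hpos hsq1).trans hprod
  have hcont := integrand_cont hB1 hB hc hSB hSc hS0
  have hint : ∀ a b : ℝ, IntervalIntegrable (integrand B c S) volume a b := fun a b =>
    hcont.intervalIntegrable a b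
  have hsplit : ∫ θ in (0 : ℝ)..(π / 2), integrand B c S θ =
      (∫ θ in (0 : ℝ)..(π / 2 - √s), integrand B c S θ) +
        ∫ θ in (π / 2 - √s)..(π / 2), integrand B c S θ :=
    (intervalIntegral.integral_add_adjacent_intervals (hint _ _) (hint _ _)).symm
  have h1 : 0 ≤ ∫ θ in (0 : ℝ)..(π / 2 - √s), integrand B c S θ :=
    intervalIntegral.integral_nonneg (by linarith) fun θ _ =>
      integrand_nonneg hB1 hB hc hSB hSc hS0 θ
  have h2 : √s * (k / 4 * δ / s) ≤ ∫ θ in (π / 2 - √s)..(π / 2), integrand B c S θ := by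
    have h3 := intervalIntegral.integral_mono_on (a := π / 2 - √s) (b := π / 2)
      (f := fun _ => k / 4 * δ / s) (g := integrand B c S) (by linarith) (by simp) (hint _ _) hlow
    rw [intervalIntegral.integral_const, smul_eq_mul] at h3
    calc √s * (k / 4 * δ / s) = (π / 2 - (π / 2 - √s)) * (k / 4 * δ / s) := by ring
      _ ≤ _ := h3
  rw [hS_eq, hsplit]
  have h4 : K / √s ≤ 2 / π ^ 2 * (∫ θ in (π / 2 - √s)..(π / 2), integrand B c S θ) := by
    have h5 : K / √s = 2 / π ^ 2 * (√s * (k / 4 * δ / s)) := by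
      rw [hK]
      have : √s * (k / 4 * δ / s) = k / 4 * δ / √s := by
        rw [eq_div_iff hrpos.ne']
        calc √s * (k / 4 * δ / s) * √s = (√s * √s) * (k / 4 * δ / s) := by ring
          _ = k / 4 * δ := by rw [hrr]; field_simp
      rw [this]; ring
    rw [h5]
    exact mul_le_mul_of_nonneg_left h2 (by positivity)
  have h6 : M < K / √s := by
    rw [lt_div_iff₀ (by positivity)] at hr
    rw [lt_div_iff₀ hrpos]
    have := le_abs_self M
    calc M * √s ≤ (|M| + 1) * √s := mul_le_mul_of_nonneg_right (by linarith) hrpos.le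
      _ = √s * (|M| + 1) := mul_comm _ _
      _ < K := hr
  have h7 : 0 ≤ 2 / π ^ 2 * ∫ θ in (0 : ℝ)..(π / 2 - √s), integrand B c S θ := by positivity
  rw [mul_add]
  linarith

theorem h_MX (hB1 : S_B1) : S_MX := by
  intro n m a b α β i₀ hab hαβ heq
  by_contra hcon
  push Not at hcon
  obtain ⟨i₁, -, hi₁⟩ := Finset.exists_max_image (Finset.univ : Finset (Fin n))
    (fun i => max (a i) (b i)) ⟨i₀, Finset.mem_univ _⟩
  set B : ℝ := max (a i₁) (b i₁) with hB
  have hBi : ∀ i, max (a i) (b i) ≤ B := fun i => hi₁ i (Finset.mem_univ i)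
  have hB0 : 0 < B := lt_max_of_lt_left (hab i₁).1
  have hB2 : B < π / 2 := max_lt (hab i₁).2.1 (hab i₁).2.2.2
  have hpi := Real.pi_pos
  -- monotonicity of `-cos²`
  have hmono : ∀ x y : ℝ, 0 < x → x ≤ y → y < π / 2 → -Real.cos x ^ 2 ≤ -Real.cos y ^ 2 := by
    intro x y hx hxy hy
    have h1 : Real.cos y ≤ Real.cos x := Real.cos_le_cos_of_nonneg_of_le_pi hx.le (by linarith) hxy
    have h2 : 0 ≤ Real.cos y := (Real.cos_pos_of_mem_Ioo ⟨by linarith, hy⟩).le
    have := pow_le_pow_left₀ h2 h1 2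
    linarith
  have hmono' : ∀ x y : ℝ, 0 < x → x < y → y < π / 2 → -Real.cos x ^ 2 < -Real.cos y ^ 2 := by
    intro x y hx hxy hy
    have h1 : Real.cos y < Real.cos x := Real.cos_lt_cos_of_nonneg_of_le_pi hx.le (by linarith) hxy
    have h2 : 0 ≤ Real.cos y := (Real.cos_pos_of_mem_Ioo ⟨by linarith, hy⟩).le
    have := pow_lt_pow_left₀ h1 h2 two_ne_zero
    linarith
  set T : ℝ := -Real.cos B ^ 2 with hT
  have hjB : ∀ j, max (α j) (β j) < B := fun j => (hcon j).trans_le (hBi i₀)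
  -- the right side is bounded
  have hK : ∀ j, ∃ K : ℝ, ∀ S, T < S → S < 0 → hS (α j) (β j) S ≤ K := by
    intro j
    obtain ⟨h1, h2, h3, h4⟩ := hαβ j
    exact hS_bound hB1 ⟨h1, h2⟩ ⟨h3, h4⟩
      (hmono' _ _ h1 ((le_max_left _ _).trans_lt (hjB j)) hB2)
      (hmono' _ _ h3 ((le_max_right _ _).trans_lt (hjB j)) hB2)
  choose K hKb using hK
  obtain ⟨s₀, hs₀, hblow⟩ : ∃ s₀ : ℝ, 0 < s₀ ∧ ∀ s, 0 < s → s < s₀ → T + s < 0 ∧
      (∑ j, K j) < hS (a i₁) (b i₁) (T + s) := by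
    rcases le_total (a i₁) (b i₁) with h | h
    · have hBb : B = b i₁ := max_eq_right h
      obtain ⟨s₀, h1, h2⟩ := hS_blow hB1 (B := b i₁) (c := a i₁) ⟨(hab i₁).2.2.1, (hab i₁).2.2.2⟩
        ⟨(hab i₁).1, (hab i₁).2.1⟩ h (∑ j, K j)
      refine ⟨s₀, h1, fun s hs hss => ?_⟩
      rw [hT, hBb, hS_comm (a i₁)]
      exact h2 s hs hss
    · have hBa : B = a i₁ := max_eq_left h
      obtain ⟨s₀, h1, h2⟩ := hS_blow hB1 (B := a i₁) (c := b i₁) ⟨(hab i₁).1, (hab i₁).2.1⟩
        ⟨(hab i₁).2.2.1, (hab i₁).2.2.2⟩ h (∑ j, K j)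
      refine ⟨s₀, h1, fun s hs hss => ?_⟩
      rw [hT, hBa]
      exact h2 s hs hss
  obtain ⟨hS0, hgt⟩ := hblow (s₀ / 2) (by positivity) (by linarith)
  set S : ℝ := T + s₀ / 2 with hSd
  have hTS : T < S := by linarith
  have hia : ∀ i, -Real.cos (max (a i) (b i)) ^ 2 < S := fun i =>
    (hmono _ _ (lt_max_of_lt_left (hab i).1) (hBi i) hB2).trans_lt hTS
  have hja : ∀ j, -Real.cos (max (α j) (β j)) ^ 2 < S := fun j =>
    (hmono _ _ (lt_max_of_lt_left (hαβ j).1) (hjB j).le hB2).trans_lt hTS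
  have h1 := heq S hia hja
  have h2 : ∑ j, hS (α j) (β j) S ≤ ∑ j, K j := Finset.sum_le_sum fun j _ => hKb j S hTS hS0
  have h3 : hS (a i₁) (b i₁) S ≤ ∑ i, hS (a i) (b i) S := by
    refine Finset.single_le_sum (f := fun i => hS (a i) (b i) S) (fun i _ => ?_) (Finset.mem_univ i₁)
    obtain ⟨e1, e2, e3, e4⟩ := hab i
    exact hS_nonneg hB1 ⟨e1, e2⟩ ⟨e3, e4⟩
      ((hmono _ _ e1 ((le_max_left _ _).trans (hBi i)) hB2).trans_lt hTS)
      ((hmono _ _ e3 ((le_max_right _ _).trans (hBi i)) hB2).trans_lt hTS) hS0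
  linarith

end Pool.Agent.H120.QT.MX
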